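import Pool.Agent.H73.AL.Extract

/-!
# Galois extensions of a number field given by open normal subgroups
-/

namespace Pool.Agent.Helper12.SD

open NumberField Pool.Agent.H73.DU Pool.Agent.H73.AL

private theorem alg_cl (inst : Algebra ℚ (AlgebraicClosure ℚ)) :
    IsAlgClosure ℚ (AlgebraicClosure ℚ) := by
  have h : inst = AlgebraicClosure.instAlgebra ℚ := Subsingleton.elim _ _
  subst h
  infer_instance

private theorem isGal : IsGalois ℚ (AlgebraicClosure ℚ) := by
  have : IsAlgClosure ℚ (AlgebraicClosure ℚ) := alg_cl inferInstance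
  have : Normal ℚ (AlgebraicClosure ℚ) := IsAlgClosure.normal ℚ _
  exact {}

/-- an open subgroup of the stabilizer `J` of an embedding of `K`, normal in `J`, comes from a
Galois extension of `K` -/
theorem exists_galois (K : NF) (φ : K.F →+* AlgebraicClosure ℚ) (H : Subgroup GQ)
    (hH : IsOpen (H : Set GQ)) (hHK : H ≤ MulAction.stabilizer GQ φ)
    (hn : ∀ g ∈ MulAction.stabilizer GQ φ, ∀ h ∈ H, g * h * g⁻¹ ∈ H) :
    ∃ (F : NF) (_ : Algebra K.F F.F) (ψ : F.F →+* AlgebraicClosure ℚ), IsGalois K.F F.F ∧
      MulAction.stabilizer GQ ψ = H ∧ mark F.F = pc H ∧ Module.finrank ℚ F.F = H.index := by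
  have := isGal
  have hcl : IsAlgClosure ℚ (AlgebraicClosure ℚ) := alg_cl inferInstance
  let F : IntermediateField ℚ (AlgebraicClosure ℚ) := IntermediateField.fixedField H
  have hfd : FiniteDimensional ℚ F := by
    obtain ⟨E, hE, hEN⟩ := (krullTopology_mem_nhds_one_iff ℚ (AlgebraicClosure ℚ) (H : Set _)).1
      (hH.mem_nhds H.one_mem)
    have h1 : F ≤ E := by
      rw [← InfiniteGalois.fixedField_fixingSubgroup E]
      exact IntermediateField.fixedField_antitone hEN
    have := hE
    exact Submodule.finiteDimensional_of_le (S₁ := Subalgebra.toSubmodule F.toSubalgebra)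
      (S₂ := Subalgebra.toSubmodule E.toSubalgebra) h1
  have hnf : NumberField F := {}
  have hst : MulAction.stabilizer GQ (algebraMap F (AlgebraicClosure ℚ)) = H := by
    have h2 : F.fixingSubgroup = H := by
      have := InfiniteGalois.fixingSubgroup_fixedField
        (⟨H, H.isClosed_of_isOpen hH⟩ : ClosedSubgroup GQ)
      exact this
    rw [← h2]
    ext g
    rw [MulAction.mem_stabilizer_iff, IntermediateField.mem_fixingSubgroup_iff]
    constructor
    · intro h x hx
      exact RingHom.congr_fun h ⟨x, hx⟩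
    · intro h
      ext x
      exact h _ x.2
  have hmark : mark F = pc H := by
    rw [mark_eq_pc F (algebraMap F (AlgebraicClosure ℚ)), hst]
  have hmem : ∀ x : K.F, φ x ∈ F := by
    intro x g
    have h1 := MulAction.mem_stabilizer_iff.1 (hHK g.2)
    exact RingHom.congr_fun h1 x
  have hfr : Module.finrank ℚ F = H.index := by
    have h3 := congrFun hmark ⊥
    rw [pc_bot, mark, pch_bot] at h3
    have h4 := NumberField.Embeddings.card F (AlgebraicClosure ℚ)
    rw [← Nat.card_eq_fintype_card] at h4
    rw [h4] at h3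
    exact_mod_cast h3
  let algKF : Algebra K.F F := (φ.codRestrict F.toSubfield hmem).toAlgebra
  let algKQ : Algebra K.F (AlgebraicClosure ℚ) := φ.toAlgebra
  have hQKQ : IsScalarTower ℚ K.F (AlgebraicClosure ℚ) := by
    refine IsScalarTower.of_algebraMap_eq' ?_
    exact Subsingleton.elim _ _
  have hclK : IsAlgClosure K.F (AlgebraicClosure ℚ) := by
    have h1 : Algebra.IsAlgebraic ℚ (AlgebraicClosure ℚ) := hcl.isAlgebraic
    exact ⟨hcl.isAlgClosed, Algebra.IsAlgebraic.tower_top (K := ℚ) K.F⟩
  have hnK : Normal K.F (AlgebraicClosure ℚ) := IsAlgClosure.normal K.F _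
  let E : IntermediateField K.F (AlgebraicClosure ℚ) := F.toSubfield.toIntermediateField hmem
  have hnE : Normal K.F E := by
    rw [IntermediateField.normal_iff_forall_map_le']
    intro σ
    rintro _ ⟨x, hx, rfl⟩
    let g : GQ := AlgEquiv.ofRingEquiv (f := σ.toRingEquiv) fun r =>
      RingHom.congr_fun (Subsingleton.elim ((σ.toRingEquiv : AlgebraicClosure ℚ →+*
        AlgebraicClosure ℚ).comp (algebraMap ℚ (AlgebraicClosure ℚ)))
          (algebraMap ℚ (AlgebraicClosure ℚ))) r
    have hg : ∀ y, g y = σ y := fun y => rfl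
    have hgs : g ∈ MulAction.stabilizer GQ φ := by
      rw [MulAction.mem_stabilizer_iff]
      ext y
      exact σ.commutes y
    change σ x ∈ F
    have hx' : x ∈ F := hx
    rw [← hg]
    rintro ⟨h, hh⟩
    have h1 : g⁻¹ * h * g ∈ H := by
      have := hn g⁻¹ (inv_mem hgs) h hh
      rwa [inv_inv] at this
    have h2 : (g⁻¹ * h * g) x = x := hx' ⟨_, h1⟩
    change h (g x) = g x
    have h3 : g ((g⁻¹ * h * g) x) = h (g x) := by
      change g (g⁻¹ (h (g x))) = h (g x)
      exact AlgEquiv.apply_symm_apply g _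
    rw [← h3, h2]
  let e : E ≃ₐ[K.F] F :=
    { toFun := fun x => ⟨x.1, x.2⟩
      invFun := fun x => ⟨x.1, x.2⟩
      left_inv := fun _ => rfl
      right_inv := fun _ => rfl
      map_mul' := fun _ _ => rfl
      map_add' := fun _ _ => rfl
      commutes' := fun _ => rfl }
  have hnF : Normal K.F F := Normal.of_algEquiv e
  have hfin : FiniteDimensional K.F F := Module.Finite.of_restrictScalars_finite ℚ K.F F
  exact ⟨⟨F⟩, algKF, algebraMap F (AlgebraicClosure ℚ), {}, hst, hmark, hfr⟩

end Pool.Agent.Helper12.SD
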