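import Pool.Agent.Helper12.SD.Rel
import Pool.Agent.QD.F.Main

/-!
# Hasse-Weil descends from the fields at the top of long towers of extensions of degree `2`, `q`
-/

namespace Pool.Agent.Helper12.SD

open NumberField IsDedekindDomain Pool.Agent.HWR Pool.Agent.QD Pool.Agent.H73.AL

theorem sd_main (T : Finset ℕ) (hTp : ∀ p ∈ T, p.Prime)
    (hT : ∀ p : ℕ, p.Prime → p < 101 → p ∈ T) (D : LocData T) (a : ℕ → ℝ)
    (ha : ∀ q : ℕ, |a q| ≤ 2 * Real.sqrt q) (hfr : FrobRel T a) (q : ℕ) [hq : Fact q.Prime]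
    (hq2 : q ≠ 2) (K : NF) (N : ℕ)
    (h : ∀ (n : ℕ) (F : NF), n = N ∨ n = N + 1 → Tow q K n F → D.HW a F.F) : D.HW a K.F := by
  have key : ∀ (m n : ℕ) (F : NF), Tow q K n F → N ≤ n + m → n ≤ N + 1 → D.HW a F.F := by
    intro m
    induction m with
    | zero => exact fun n F h1 h2 h3 => h n F (by omega) h1
    | succ m ih =>
      intro n F hF h1 h2
      rcases Nat.lt_or_ge n N with hn | hn
      swap
      · exact h n F (by omega) hF
      have step : ∀ (F' : NF) (k : ℕ), 0 < k → k ≤ 2 → Tow q F k F' → D.HW a F'.F :=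
        fun F' k hk hk2 hF' => ih (n + k) F' (hF.trans hF') (by omega) (by omega)
      refine descent F.F T hTp hT D a ha (sqRel_of_frob F.F T a hfr) ?_ ?_
      · intro K' _ _ _ hK'
        have : Algebra.IsQuadraticExtension F.F K' := ⟨hK'⟩
        exact step ⟨K'⟩ 1 one_pos (by norm_num)
          (Tow.succ (F' := ⟨K'⟩) inferInstance Tow.zero inferInstance (Or.inl hK'))
      · obtain ⟨A, B, hAB, hrel⟩ := rel_ext T q hq2 F
        have hreal : ∀ F' ∈ A ++ B, D.HW a F'.F := by
          intro F' hF'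
          obtain ⟨k, hk, hk2, hk'⟩ := hAB F' hF'
          exact step F' k hk hk2 hk'
        exact MER_of_rel D hTp hT ha F hrel
          (fun F' hF' => hreal F' (List.mem_append.2 (Or.inl hF')))
          (fun F' hF' => hreal F' (List.mem_append.2 (Or.inr hF')))
  exact key N 0 K Tow.zero (by omega) (by omega)

end Pool.Agent.Helper12.SD
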