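import Pool.Agent.Helper12.SD.Gal

/-!
# Relations between a number field and the fields above it in towers of cyclic extensions of
degree `2` and `q`
-/

namespace Pool.Agent.Helper12.SD

open NumberField Pool.Agent.H73.DU Pool.Agent.H73.AL

/-- `F` is obtained from `K` by `n` successive Galois extensions of degree `2` or `q` -/
inductive Tow (q : ℕ) (K : NF) : ℕ → NF → Prop
  | zero : Tow q K 0 K
  | succ {n : ℕ} {F F' : NF} (alg : Algebra F.F F'.F) (h : Tow q K n F)
      (hg : IsGalois F.F F'.F) (hd : Module.finrank F.F F'.F = 2 ∨ Module.finrank F.F F'.F = q) :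
      Tow q K (n + 1) F'

theorem Tow.trans {q : ℕ} {K F : NF} {n : ℕ} (h : Tow q K n F) {m : ℕ} {F' : NF}
    (h' : Tow q F m F') : Tow q K (n + m) F' := by
  induction h' with
  | zero => exact h
  | succ alg _ hg hd ih => exact Tow.succ alg ih hg hd

/-- the sum of the marks of a list -/
noncomputable def sm (A : List NF) (U : Subgroup GQ) : ℤ := (A.map fun F => mark F.F U).sum

theorem sm_nil (U : Subgroup GQ) : sm [] U = 0 := rfl

theorem sm_cons (F : NF) (A : List NF) (U : Subgroup GQ) :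
    sm (F :: A) U = mark F.F U + sm A U := by
  unfold sm
  rw [List.map_cons, List.sum_cons]

theorem sm_append (A B : List NF) (U : Subgroup GQ) : sm (A ++ B) U = sm A U + sm B U := by
  unfold sm
  rw [List.map_append, List.sum_append]

/-- functions realised by a difference of lists of proper extensions in towers -/
def Real (T : Finset ℕ) (q : ℕ) (K : NF) (f : Subgroup GQ → ℤ) : Prop :=
  ∃ A B : List NF, (∀ F ∈ A ++ B, ∃ n, 0 < n ∧ n ≤ 2 ∧ Tow q K n F) ∧ ∀ U ∈ famT T, f U + sm A U = sm B U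

theorem Real.sub {T : Finset ℕ} {q : ℕ} {K : NF} {f g : Subgroup GQ → ℤ} (hf : Real T q K f)
    (hg : Real T q K g) : Real T q K (f - g) := by
  obtain ⟨A, B, h1, h2⟩ := hf
  obtain ⟨A', B', h3, h4⟩ := hg
  refine ⟨A ++ B', B ++ A', ?_, fun U hU => ?_⟩
  · intro F hF
    simp only [List.mem_append] at hF h1 h3
    rcases hF with (h | h) | h | h
    · exact h1 F (Or.inl h)
    · exact h3 F (Or.inr h)
    · exact h1 F (Or.inr h)
    · exact h3 F (Or.inl h)
  · rw [sm_append, sm_append, Pi.sub_apply]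
    have := h2 U hU
    have := h4 U hU
    linarith

theorem Real.add {T : Finset ℕ} {q : ℕ} {K : NF} {f g : Subgroup GQ → ℤ} (hf : Real T q K f)
    (hg : Real T q K g) : Real T q K (f + g) := by
  obtain ⟨A, B, h1, h2⟩ := hf
  obtain ⟨A', B', h3, h4⟩ := hg
  refine ⟨A ++ A', B ++ B', ?_, fun U hU => ?_⟩
  · intro F hF
    simp only [List.mem_append] at hF h1 h3
    rcases hF with (h | h) | h | h
    · exact h1 F (Or.inl h)
    · exact h3 F (Or.inl h)
    · exact h1 F (Or.inr h)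
    · exact h3 F (Or.inr h)
  · rw [sm_append, sm_append, Pi.add_apply]
    have := h2 U hU
    have := h4 U hU
    linarith

theorem Real.zero {T : Finset ℕ} {q : ℕ} {K : NF} : Real T q K 0 :=
  ⟨[], [], by simp, fun U _ => by simp [sm_nil]⟩

theorem Real.nsmul {T : Finset ℕ} {q : ℕ} {K : NF} {f : Subgroup GQ → ℤ} (hf : Real T q K f)
    (n : ℕ) : Real T q K (n • f) := by
  induction n with
  | zero => rw [zero_smul]; exact Real.zero
  | succ n ih => rw [succ_nsmul]; exact ih.add hf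

theorem Real.sum {T : Finset ℕ} {q : ℕ} {K : NF} {ι : Type} (s : Finset ι)
    (f : ι → Subgroup GQ → ℤ) (hf : ∀ i ∈ s, Real T q K (f i)) : Real T q K (∑ i ∈ s, f i) := by
  classical
  induction s using Finset.induction_on with
  | empty => rw [Finset.sum_empty]; exact Real.zero
  | insert a s ha ih =>
    rw [Finset.sum_insert ha]
    exact (hf a (Finset.mem_insert_self a s)).add
      (ih fun i hi => hf i (Finset.mem_insert_of_mem hi))

theorem Real.congr {T : Finset ℕ} {q : ℕ} {K : NF} {f g : Subgroup GQ → ℤ} (hf : Real T q K f)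
    (h : ∀ U ∈ famT T, g U = f U) : Real T q K g := by
  obtain ⟨A, B, h1, h2⟩ := hf
  exact ⟨A, B, h1, fun U hU => by rw [h U hU]; exact h2 U hU⟩

theorem index_stab (K : NF) (φ : K.F →+* AlgebraicClosure ℚ) :
    Module.finrank ℚ K.F = (MulAction.stabilizer GQ φ).index := by
  have h3 := congrFun (mark_eq_pc K.F φ) ⊥
  rw [pc_bot, mark, pch_bot] at h3
  have h4 := NumberField.Embeddings.card K.F (AlgebraicClosure ℚ)
  rw [← Nat.card_eq_fintype_card] at h4
  rw [h4] at h3
  exact_mod_cast h3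

/-- one step -/
theorem exists_step (K : NF) (φ : K.F →+* AlgebraicClosure ℚ) (H : Subgroup GQ)
    (hH : IsOpen (H : Set GQ)) (hHK : H ≤ MulAction.stabilizer GQ φ)
    (hn : ∀ g ∈ MulAction.stabilizer GQ φ, ∀ h ∈ H, g * h * g⁻¹ ∈ H) {p : ℕ}
    (hi : H.index = p * (MulAction.stabilizer GQ φ).index) :
    ∃ (F : NF) (_ : Algebra K.F F.F) (ψ : F.F →+* AlgebraicClosure ℚ), IsGalois K.F F.F ∧
      MulAction.stabilizer GQ ψ = H ∧ mark F.F = pc H ∧ Module.finrank K.F F.F = p := by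
  obtain ⟨F, alg, ψ, h1, h2, h3, h4⟩ := exists_galois K φ H hH hHK hn
  refine ⟨F, alg, ψ, h1, h2, h3, ?_⟩
  have h5 : Module.finrank ℚ K.F * Module.finrank K.F F.F = Module.finrank ℚ F.F :=
    Module.finrank_mul_finrank ℚ K.F F.F
  rw [h4, hi, index_stab K φ, mul_comm] at h5
  have h6 : 0 < (MulAction.stabilizer GQ φ).index := by
    rw [← index_stab K φ]
    exact Module.finrank_pos
  exact Nat.eq_of_mul_eq_mul_right h6 h5

/-- conjugation in the image of a normal subgroup of `J` -/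
theorem conj_map {G : Type*} [Group G] {J : Subgroup G} (H : Subgroup J) (hH : H.Normal) :
    ∀ g ∈ J, ∀ h ∈ H.map J.subtype, g * h * g⁻¹ ∈ H.map J.subtype := by
  intro g hg h hh
  obtain ⟨h', hh', e⟩ := Subgroup.mem_map.1 hh
  refine Subgroup.mem_map.2 ⟨(⟨g, hg⟩ : J) * h' * (⟨g, hg⟩ : J)⁻¹, hH.conj_mem h' hh' _, ?_⟩
  rw [map_mul, map_mul, map_inv, e]
  rfl

/-- `p` times the marks of `K`, `p = 2` or `p = q` -/
theorem real_p (T : Finset ℕ) (q p : ℕ) [Fact p.Prime] (hp : p = 2 ∨ p = q) (K : NF)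
    (φ : K.F →+* AlgebraicClosure ℚ) :
    Real T q K (p • (pc (MulAction.stabilizer GQ φ) : Subgroup GQ → ℤ)) := by
  classical
  obtain ⟨J, hJ⟩ : ∃ J, MulAction.stabilizer GQ φ = J := ⟨_, rfl⟩
  have hJo : IsOpen (J : Set GQ) := hJ ▸ stab_open K.F φ
  have hG := nice_rat T
  have hGJ := hG.sub hJo
  obtain ⟨l1, h1o, ⟨n1, -, hn1⟩, -⟩ := exists_char p hGJ (N := ⊤) isOpen_univ
  obtain ⟨l2, h2o, ⟨n2, hn2, hn2'⟩, h2U⟩ := exists_char p hGJ (N := l1.ker) h1o
  have hrel := relA l1 l2 ⟨n1, hn1⟩ ⟨n2, hn2, hn2'⟩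
  have hinf : IsOpen ((l1.ker ⊓ l2.ker : Subgroup J) : Set J) := by
    rw [Subgroup.coe_inf]
    exact h1o.inter h2o
  have hco : ∀ c : ZMod p, IsOpen (((l2 * l1 ^ c.val).ker : Subgroup J) : Set J) := by
    intro c
    refine Subgroup.isOpen_mono ?_ hinf
    rintro x ⟨hx1, hx2⟩
    rw [MonoidHom.mem_ker, MonoidHom.mul_apply, MonoidHom.pow_apply,
      MonoidHom.mem_ker.1 hx1, MonoidHom.mem_ker.1 hx2, one_pow, mul_one]
  have hci : ∀ c : ZMod p, ((l2 * l1 ^ c.val).ker).index = p := by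
    intro c
    refine ker_index _ ⟨n2, ?_⟩
    rw [MonoidHom.mul_apply, MonoidHom.pow_apply, MonoidHom.mem_ker.1 hn2, one_pow, mul_one]
    exact hn2'
  have hp' : ∀ {m : ℕ}, m = p → m = 2 ∨ m = q := fun h => by rw [h]; exact hp
  have := hG.fin hJo
  have : Fintype (GQ ⧸ J) := Fintype.ofFinite _
  have hn1' : (l1.ker).Normal := MonoidHom.normal_ker l1
  have hn2'' : (l2.ker).Normal := MonoidHom.normal_ker l2
  have hninf : (l1.ker ⊓ l2.ker).Normal := Subgroup.normal_inf_normal _ _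
  -- realisation of `pc` of a normal subgroup of `J` of index `p`
  have key : ∀ (H : Subgroup J) (hH : IsOpen (H : Set J)) (hHn : H.Normal)
      (hi : H.index = p), Real T q K (ind J (pc H)) := by
    intro H hH hHn hi
    have := hGJ.fin hH
    rw [ind_pc]
    obtain ⟨F, alg, ψ, e1, e2, e3, e4⟩ := exists_step K φ (H.map J.subtype) (open_map hJo hH)
      (by rw [hJ]; exact Subgroup.map_subtype_le H) (by rw [hJ]; exact conj_map H hHn) (p := p)
      (by rw [Subgroup.index_map_subtype, hi, hJ])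
    refine ⟨[], [F], ?_, fun U _ => ?_⟩
    · intro F' hF'
      rw [List.nil_append, List.mem_singleton] at hF'
      subst hF'
      exact ⟨1, one_pos, by norm_num, Tow.succ alg Tow.zero e1 (hp' e4)⟩
    · rw [sm_nil, sm_cons, sm_nil, e3]
  have key2 : Real T q K (ind J (pc (l1.ker ⊓ l2.ker))) := by
    have := hGJ.fin hinf
    rw [ind_pc]
    obtain ⟨F, alg, ψ, e1, e2, e3, e4⟩ := exists_step K φ (l1.ker.map J.subtype)
      (open_map hJo h1o) (by rw [hJ]; exact Subgroup.map_subtype_le _) (by rw [hJ]; exact conj_map _ hn1') (p := p)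
      (by rw [Subgroup.index_map_subtype, ker_index l1 ⟨n1, hn1⟩, hJ])
    have hle : (l1.ker ⊓ l2.ker).map J.subtype ≤ l1.ker.map J.subtype :=
      Subgroup.map_mono inf_le_left
    obtain ⟨F', alg', ψ', f1, f2, f3, f4⟩ := exists_step F ψ ((l1.ker ⊓ l2.ker).map J.subtype)
      (open_map hJo hinf) (e2 ▸ hle) (by
        intro g hg h hh
        rw [e2] at hg
        exact conj_map (l1.ker ⊓ l2.ker) hninf g (Subgroup.map_subtype_le _ hg) h hh)
      (p := p) (by
        rw [e2, Subgroup.index_map_subtype, Subgroup.index_map_subtype,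
          inf_index l1 l2 ⟨n1, hn1⟩ ⟨n2, hn2, hn2'⟩, ker_index l1 ⟨n1, hn1⟩]
        ring)
    refine ⟨[], [F'], ?_, fun U _ => ?_⟩
    · intro F'' hF''
      rw [List.nil_append, List.mem_singleton] at hF''
      subst hF''
      exact ⟨2, two_pos, le_rfl, Tow.succ alg' (Tow.succ alg Tow.zero e1 (hp' e4)) f1 (hp' f4)⟩
    · rw [sm_nil, sm_cons, sm_nil, f3]
  have hR : Real T q K (ind J (pc l1.ker) + ∑ c : ZMod p, ind J (pc ((l2 * l1 ^ c.val).ker)) -
      ind J (pc (l1.ker ⊓ l2.ker))) :=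
    ((key _ h1o hn1' (ker_index l1 ⟨n1, hn1⟩)).add
      (Real.sum _ _ fun c _ => key _ (hco c) (MonoidHom.normal_ker _) (hci c))).sub key2
  rw [hJ]
  refine hR.congr fun U hU => ?_
  have h0 : p • (pc J : Subgroup GQ → ℤ) = ind J ((p : ℤ) • (1 : Subgroup J → ℤ)) := by
    rw [map_zsmul, ind_one, natCast_zsmul]
  rw [h0, ← map_sum, ← map_add, ← map_sub, ← sub_eq_zero, ← Pi.sub_apply, ← map_sub]
  change (∑ x : GQ ⧸ J, _) = (0 : ℤ)
  refine Finset.sum_eq_zero fun x _ => ?_
  split_ifs with h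
  · have hV : (cj x.out U).subgroupOf J ∈ res J (famT T) := by
      change ((cj x.out U).subgroupOf J).map J.subtype ∈ famT T
      rw [Subgroup.subgroupOf_map_subtype, inf_eq_left.2 h]
      exact hG.conj U hU _
    have h9 := hrel _ (h2U _ hV)
    rw [Pi.add_apply] at h9
    rw [Pi.sub_apply, Pi.sub_apply, ← h9]
    ring
  · rfl

/-- `K` is related to fields above it in towers -/
theorem rel_ext (T : Finset ℕ) (q : ℕ) [hq : Fact q.Prime] (hq2 : q ≠ 2) (K : NF) :
    ∃ A B : List NF, (∀ F ∈ A ++ B, ∃ n, 0 < n ∧ n ≤ 2 ∧ Tow q K n F) ∧ Rel T (K :: A) B := by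
  obtain ⟨φ⟩ : Nonempty (K.F →+* AlgebraicClosure ℚ) := inferInstance
  have : Fact (Nat.Prime 2) := ⟨Nat.prime_two⟩
  have h2 := real_p T q 2 (Or.inl rfl) K φ
  have h3 := real_p T q q (Or.inr rfl) K φ
  obtain ⟨r, hr⟩ := hq.out.odd_of_ne_two hq2
  have h4 := h3.sub (h2.nsmul r)
  have h5 : q • (pc (MulAction.stabilizer GQ φ) : Subgroup GQ → ℤ) -
      r • (2 • (pc (MulAction.stabilizer GQ φ) : Subgroup GQ → ℤ)) =
      pc (MulAction.stabilizer GQ φ) := by
    rw [hr, add_smul, one_smul, smul_smul, mul_comm r 2]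
    abel
  rw [h5] at h4
  obtain ⟨A, B, h6, h7⟩ := h4
  refine ⟨A, B, h6, fun U hU => ?_⟩
  have h8 := h7 U hU
  rw [← mark_eq_pc K.F φ] at h8
  rw [List.map_cons, List.sum_cons]
  exact h8

end Pool.Agent.Helper12.SD
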